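import Pool.Agent.T6.H79.TS.Defs

/-! Tree-shifts in which the state of a node determines the states of its children. -/

set_option autoImplicit false

namespace Pool.Agent.T6.H79.TS

open Filter Topology Finset

variable {d : ℕ} {S : Type}

/-- the alphabet: dead nodes, and live nodes with a state and a free colour -/
abbrev Al (S : Type) : Type := Option (S × Bool)

/-- the label of the child `c` of a node with the label `x` can be `y` -/
def Ok (ch : S → Fin d → Option S) (x : Al S) (c : Fin d) (y : Al S) : Prop :=
  y.map Prod.fst = x.bind fun p => ch p.1 c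

/-- the tree-shift -/
def XX (ch : S → Fin d → Option S) : Set (Tree d (Al S)) :=
  {t | ∀ (v : List (Fin d)) (c : Fin d), Ok ch (t v) c (t (v ++ [c]))}

/-- the state of the node `w` below a node of the state `s` -/
def st (ch : S → Fin d → Option S) : S → List (Fin d) → Option S
  | s, [] => some s
  | s, c :: w => (ch s c).bind fun s' => st ch s' w

theorem st_snoc (ch : S → Fin d → Option S) (s : S) (w : List (Fin d)) (c : Fin d) :
    st ch s (w ++ [c]) = (st ch s w).bind fun s' => ch s' c := by
  induction w generalizing s with
  | nil =>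
    simp only [List.nil_append, st, Option.bind_some]
    cases ch s c <;> rfl
  | cons a w ih =>
    simp only [List.cons_append, st]
    cases h : ch s a with
    | none => rfl
    | some s' => simpa using ih s'

theorem none_below {ch : S → Fin d → Option S} {t : Tree d (Al S)} (ht : t ∈ XX ch)
    (v : List (Fin d)) (h : t v = none) (w : List (Fin d)) : t (v ++ w) = none := by
  induction w using List.reverseRecOn with
  | nil => simpa using h
  | append_singleton w c ih =>
    have h1 := ht (v ++ w) c
    unfold Ok at h1
    rw [ih] at h1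
    simp only [Option.bind_none, Option.map_eq_none_iff] at h1
    rw [← List.append_assoc]
    exact h1

theorem some_below {ch : S → Fin d → Option S} {t : Tree d (Al S)} (ht : t ∈ XX ch)
    (v : List (Fin d)) (s : S) (b : Bool) (h : t v = some (s, b)) (w : List (Fin d)) :
    (t (v ++ w)).map Prod.fst = st ch s w := by
  induction w using List.reverseRecOn with
  | nil => simp [h, st]
  | append_singleton w c ih =>
    have h1 := ht (v ++ w) c
    unfold Ok at h1
    rw [← List.append_assoc, h1, st_snoc, ← ih]
    cases t (v ++ w) <;> rfl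

/-- the number of the live nodes of length `< n` below a node of the state `s` -/
def K (ch : S → Fin d → Option S) : ℕ → S → ℕ
  | 0, _ => 0
  | n + 1, s => 1 + ∑ c, (ch s c).elim 0 (K ch n)

/-- the live nodes -/
abbrev Live (ch : S → Fin d → Option S) (n : ℕ) (s : S) : Type :=
  {w : List (Fin d) // w.length < n ∧ (st ch s w).isSome}

instance (n : ℕ) : Finite (Node d n) := by
  have := List.finite_length_lt (Fin d) n
  exact this.to_subtype

instance (ch : S → Fin d → Option S) (n : ℕ) (s : S) : Finite (Live ch n s) :=
  Finite.of_injective (fun w : Live ch n s => (⟨w.1, w.2.1⟩ : Node d n)) fun a b h =>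
    Subtype.ext (by simpa using h)

/-- a live node of length `< n + 1` is the root or a live node below a live child -/
def liveEquiv (ch : S → Fin d → Option S) (n : ℕ) (s : S) :
    Live ch (n + 1) s ≃ Unit ⊕ (Σ c : Fin d, {w : List (Fin d) // w.length < n ∧
      ((ch s c).bind fun s' => st ch s' w).isSome}) where
  toFun w := match w with
    | ⟨[], _⟩ => Sum.inl ()
    | ⟨c :: w, h⟩ => Sum.inr ⟨c, w, by
        have := h.1
        rw [List.length_cons] at this
        omega, h.2⟩
  invFun x := match x with
    | Sum.inl _ => ⟨[], Nat.succ_pos n, rfl⟩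
    | Sum.inr ⟨c, w, h⟩ => ⟨c :: w, by
        rw [List.length_cons]
        exact Nat.succ_lt_succ h.1, h.2⟩
  left_inv w := by
    rcases w with ⟨_ | ⟨c, w⟩, h⟩ <;> rfl
  right_inv x := by
    rcases x with _ | ⟨c, w, h⟩ <;> rfl

theorem card_live (ch : S → Fin d → Option S) (n : ℕ) (s : S) :
    Nat.card (Live ch n s) = K ch n s := by
  induction n generalizing s with
  | zero =>
    have : IsEmpty (Live ch 0 s) := ⟨fun w => absurd w.2.1 (Nat.not_lt_zero _)⟩
    rw [Nat.card_of_isEmpty]
    rfl
  | succ n ih =>
    have hfin : ∀ c : Fin d, Finite {w : List (Fin d) // w.length < n ∧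
        ((ch s c).bind fun s' => st ch s' w).isSome} := fun c =>
      Finite.of_injective (fun w => (⟨w.1, w.2.1⟩ : Node d n)) fun a b h =>
        Subtype.ext (by simpa using h)
    rw [Nat.card_congr (liveEquiv ch n s), Nat.card_sum, Nat.card_sigma]
    simp only [Nat.card_unique, K]
    congr 1
    refine Finset.sum_congr rfl fun c _ => ?_
    cases h : ch s c with
    | none =>
      have : IsEmpty {w : List (Fin d) // w.length < n ∧
          ((none : Option S).bind fun s' => st ch s' w).isSome} :=
        ⟨fun w => by simpa using w.2.2⟩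
      simp only [Option.elim_none]
      exact Nat.card_of_isEmpty
    | some s' =>
      simp only [Option.elim_some]
      exact ih s'

open Classical in
/-- the colours `ε`, extended by `false` -/
noncomputable def col (ch : S → Fin d → Option S) (n : ℕ) (s : S) (ε : Live ch n s → Bool)
    (w : List (Fin d)) : Bool :=
  if h : w.length < n ∧ (st ch s w).isSome then ε ⟨w, h⟩ else false

/-- the tree with the root of the state `s` and the colours `ε` -/
noncomputable def bl (ch : S → Fin d → Option S) (n : ℕ) (s : S) (ε : Live ch n s → Bool) :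
    Tree d (Al S) := fun w => (st ch s w).map fun s' => (s', col ch n s ε w)

theorem bl_mem (ch : S → Fin d → Option S) (n : ℕ) (s : S) (ε : Live ch n s → Bool) :
    bl ch n s ε ∈ XX ch := by
  intro v c
  unfold Ok bl
  rw [Option.map_map, st_snoc]
  cases h : st ch s v with
  | none => rfl
  | some s' =>
    simp only [Option.bind_some, Option.map_some]
    cases ch s' c <;> rfl

theorem lower [Finite S] (ch : S → Fin d → Option S) (n : ℕ) (s : S) :
    2 ^ K ch n s ≤ (blocks (XX ch) n).ncard := by
  classical
  have hinj : Function.Injective fun ε : Live ch n s → Bool => blockAt (bl ch n s ε) n [] := by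
    intro ε ε' h
    funext w
    have h1 := congrFun h ⟨w.1, w.2.1⟩
    simp only [blockAt, bl, List.nil_append] at h1
    obtain ⟨s', hs'⟩ := Option.isSome_iff_exists.1 w.2.2
    have hw : w.1.length < n ∧ (st ch s w.1).isSome := w.2
    simp only [hs', Option.map_some, Option.some.injEq, Prod.mk.injEq, true_and] at h1
    unfold col at h1
    rw [dif_pos hw, dif_pos hw] at h1
    exact h1
  calc 2 ^ K ch n s = Nat.card (Live ch n s → Bool) := by
        rw [Nat.card_fun, card_live, Nat.card_eq_fintype_card, Fintype.card_bool]
    _ = (Set.range fun ε : Live ch n s → Bool => blockAt (bl ch n s ε) n []).ncard := by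
        rw [← Nat.card_coe_set_eq]
        exact Nat.card_congr (Equiv.ofInjective _ hinj)
    _ ≤ (blocks (XX ch) n).ncard := by
        refine Set.ncard_le_ncard ?_ (Set.toFinite _)
        rintro _ ⟨ε, rfl⟩
        exact ⟨_, bl_mem ch n s ε, [], rfl⟩

theorem upper [Fintype S] (ch : S → Fin d → Option S) (n : ℕ) :
    (blocks (XX ch) n).ncard ≤ 1 + ∑ s, 2 ^ K ch n s := by
  classical
  have hsub : blocks (XX ch) n ⊆ Set.range (fun x : Option (Σ s, (Live ch n s → Bool)) =>
      (match x with
        | none => fun _ => none
        | some ⟨s, ε⟩ => blockAt (bl ch n s ε) n [] : Block d (Al S) n)) := by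
    rintro b ⟨t, ht, v, rfl⟩
    rcases hv : t v with _ | ⟨s, b⟩
    · refine ⟨none, ?_⟩
      funext w
      exact (none_below ht v hv w.1).symm
    · refine ⟨some ⟨s, fun w => ((t (v ++ w.1)).map Prod.snd).getD false⟩, ?_⟩
      funext w
      have h1 := some_below ht v s b hv w.1
      simp only [blockAt, bl, List.nil_append]
      rcases hw : t (v ++ w.1) with _ | ⟨s', b'⟩
      · rw [hw] at h1
        rw [← h1]
        rfl
      · rw [hw] at h1
        have h2 : st ch s w.1 = some s' := h1.symm
        have h3 : w.1.length < n ∧ (st ch s w.1).isSome := ⟨w.2, by rw [h2]; rfl⟩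
        rw [h2]
        unfold col
        rw [dif_pos h3]
        simp [hw]
  calc (blocks (XX ch) n).ncard ≤ _ := Set.ncard_le_ncard hsub (Set.toFinite _)
    _ ≤ Nat.card (Option (Σ s, (Live ch n s → Bool))) := by
        rw [← Nat.card_coe_set_eq]
        exact Finite.card_range_le _
    _ = 1 + ∑ s, 2 ^ K ch n s := by
        rw [Finite.card_option, Nat.card_sigma, add_comm]
        congr 1
        refine Finset.sum_congr rfl fun s _ => ?_
        rw [Nat.card_fun, card_live, Nat.card_eq_fintype_card, Fintype.card_bool]

theorem tsft [Finite S] (ch : S → Fin d → Option S) :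
    ∃ F : Set (Σ n : ℕ, Block d (Al S) n), F.Finite ∧ (∀ b ∈ F, b.1 = 2) ∧ XX ch = shift F := by
  refine ⟨(fun b : Block d (Al S) 2 => (⟨2, b⟩ : Σ n : ℕ, Block d (Al S) n)) ''
    {b | ¬ ∀ c : Fin d, Ok ch (b ⟨[], by simp⟩) c (b ⟨[c], by simp⟩)}, ?_, ?_, ?_⟩
  · exact Set.Finite.image _ (Set.toFinite _)
  · rintro _ ⟨b, -, rfl⟩
    rfl
  · ext t
    constructor
    · rintro ht v n ⟨b, hb, hbn⟩
      have h2 : n = 2 := (congrArg Sigma.fst hbn).symm
      subst h2
      have h3 : b = blockAt t 2 v := by
        have := eq_of_heq (Sigma.mk.inj hbn).2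
        exact this
      subst h3
      refine hb fun c => ?_
      have := ht v c
      simpa [blockAt] using this
    · intro ht v c
      have h1 := ht v 2
      by_contra hc
      refine h1 ⟨blockAt t 2 v, ?_, rfl⟩
      intro hall
      apply hc
      have := hall c
      simpa [blockAt] using this

end Pool.Agent.T6.H79.TS
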