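import Pool.Agent.T6.H79.TS.E
import Pool.Agent.T6.H79.TS.T

/-! The tree-shift of a nonnegative integer matrix and an approximate eigenvector. -/

set_option autoImplicit false

namespace Pool.Agent.T6.H79.TS

open Filter Topology Finset

variable {S : Type} [Fintype S] [DecidableEq S]

/-- `v i` copies of every state `i` -/
abbrev Cp (v : S → ℕ) : Type := Σ i : S, Fin (v i)

theorem exists_child (M : Matrix S S ℕ) (v : S → ℕ) (d : ℕ)
    (h : ∀ i, ∑ j, M i j * v j ≤ d * v i) :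
    ∃ ch : Cp v → Fin d → Option (Cp v), ∀ (i : S) (f : Cp v → ℕ),
      ∑ k : Fin (v i), ∑ c : Fin d, (ch ⟨i, k⟩ c).elim 0 f =
        ∑ j, M i j * ∑ l : Fin (v j), f ⟨j, l⟩ := by
  classical
  have hemb : ∀ i, Nonempty ((Σ j : S, Fin (M i j) × Fin (v j)) ↪ Fin (v i) × Fin d) := by
    intro i
    apply Function.Embedding.nonempty_of_card_le
    simp only [Fintype.card_sigma, Fintype.card_prod, Fintype.card_fin]
    rw [mul_comm (v i)]
    exact h i
  let φ := fun i => (hemb i).some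
  refine ⟨fun x c => (Function.partialInv (φ x.1) (x.2, c)).map fun e => ⟨e.1, e.2.2⟩,
    fun i f => ?_⟩
  rw [← Fintype.sum_prod_type' (f := fun (k : Fin (v i)) (c : Fin d) =>
    (Option.map (fun e : (Σ j : S, Fin (M i j) × Fin (v j)) => (⟨e.1, e.2.2⟩ : Cp v))
      (Function.partialInv (φ i) (k, c))).elim 0 f)]
  have h1 : ∑ e : (Σ j : S, Fin (M i j) × Fin (v j)), f ⟨e.1, e.2.2⟩ =
      ∑ x : Fin (v i) × Fin d,
        (Option.map (fun e : (Σ j : S, Fin (M i j) × Fin (v j)) => (⟨e.1, e.2.2⟩ : Cp v))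
          (Function.partialInv (φ i) (x.1, x.2))).elim 0 f := by
    refine Finset.sum_of_injOn (φ i) (φ i).injective.injOn (fun _ _ => Finset.mem_coe.2 (Finset.mem_univ _))
      (fun x _ hx => ?_) (fun e _ => ?_)
    · have h2 : Function.partialInv (φ i) (x.1, x.2) = none := by
        rw [Option.eq_none_iff_forall_ne_some]
        intro e he
        have h3 := (Function.partialInv_of_injective (φ i).injective e (x.1, x.2)).1 he
        exact hx ⟨e, Finset.mem_coe.2 (Finset.mem_univ _), h3⟩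
      rw [h2]
      rfl
    · have h2 : Function.partialInv (φ i) ((φ i e).1, (φ i e).2) = some e :=
        Function.partialInv_left (φ i).injective e
      rw [h2]
      rfl
  rw [← h1, Fintype.sum_sigma]
  refine Finset.sum_congr rfl fun j _ => ?_
  rw [Fintype.sum_prod_type]
  simp only [Finset.sum_const, Finset.card_univ, Fintype.card_fin, smul_eq_mul]

/-- the sum of the entries of `M ^ m v` -/
def Aw (M : Matrix S S ℕ) (v : S → ℕ) (m : ℕ) (i : S) : ℕ := ∑ j, (M ^ m) i j * v j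

theorem Aw_succ (M : Matrix S S ℕ) (v : S → ℕ) (m : ℕ) (i : S) :
    Aw M v (m + 1) i = ∑ j, M i j * Aw M v m j := by
  unfold Aw
  simp only [pow_succ', Matrix.mul_apply, Finset.mul_sum, Finset.sum_mul]
  rw [Finset.sum_comm]
  refine Finset.sum_congr rfl fun j _ => Finset.sum_congr rfl fun l _ => ?_
  ring

theorem sum_K (M : Matrix S S ℕ) (v : S → ℕ) (d : ℕ) (ch : Cp v → Fin d → Option (Cp v))
    (hch : ∀ (i : S) (f : Cp v → ℕ), ∑ k : Fin (v i), ∑ c : Fin d, (ch ⟨i, k⟩ c).elim 0 f =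
        ∑ j, M i j * ∑ l : Fin (v j), f ⟨j, l⟩) (n : ℕ) (i : S) :
    ∑ k : Fin (v i), K ch n ⟨i, k⟩ = ∑ m ∈ range n, Aw M v m i := by
  induction n generalizing i with
  | zero => simp [K]
  | succ n ih =>
    simp only [K]
    rw [Finset.sum_add_distrib, hch i (K ch n), Finset.sum_range_succ', add_comm]
    have e0 : ∑ _k : Fin (v i), 1 = Aw M v 0 i := by
      unfold Aw
      simp [Matrix.one_apply]
    rw [e0]
    congr 1
    simp only [ih]
    rw [show (∑ m ∈ range n, Aw M v (m + 1) i) = ∑ m ∈ range n, ∑ j, M i j * Aw M v m j from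
      Finset.sum_congr rfl fun m _ => Aw_succ M v m i]
    rw [Finset.sum_comm]
    refine Finset.sum_congr rfl fun j _ => ?_
    rw [Finset.mul_sum]

theorem total_lower (M : Matrix S S ℕ) (v : S → ℕ) (hv : ∀ i, 1 ≤ v i) (d : ℕ)
    (ch : Cp v → Fin d → Option (Cp v))
    (hch : ∀ (i : S) (f : Cp v → ℕ), ∑ k : Fin (v i), ∑ c : Fin d, (ch ⟨i, k⟩ c).elim 0 f =
        ∑ j, M i j * ∑ l : Fin (v j), f ⟨j, l⟩) (n : ℕ) :
    R M n ≤ ∑ x : Cp v, K ch (n + 1) x := by
  rw [Fintype.sum_sigma]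
  unfold R
  refine Finset.sum_le_sum fun i _ => ?_
  rw [sum_K M v d ch hch]
  calc ∑ j, (M ^ n) i j ≤ Aw M v n i := by
        unfold Aw
        exact Finset.sum_le_sum fun j _ => Nat.le_mul_of_pos_right _ (hv j)
    _ ≤ _ := Finset.single_le_sum (f := fun m => Aw M v m i) (fun _ _ => Nat.zero_le _)
        (Finset.mem_range.2 (Nat.lt_succ_self n))

theorem total_upper (M : Matrix S S ℕ) (v : S → ℕ) (d : ℕ)
    (ch : Cp v → Fin d → Option (Cp v))
    (hch : ∀ (i : S) (f : Cp v → ℕ), ∑ k : Fin (v i), ∑ c : Fin d, (ch ⟨i, k⟩ c).elim 0 f =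
        ∑ j, M i j * ∑ l : Fin (v j), f ⟨j, l⟩) (n : ℕ) :
    ∑ x : Cp v, K ch n x ≤ (∑ i, v i) * ∑ m ∈ range n, R M m := by
  rw [Fintype.sum_sigma]
  calc ∑ i, ∑ k : Fin (v i), K ch n ⟨i, k⟩ = ∑ i, ∑ m ∈ range n, Aw M v m i :=
        Finset.sum_congr rfl fun i _ => sum_K M v d ch hch n i
    _ = ∑ m ∈ range n, ∑ i, Aw M v m i := Finset.sum_comm
    _ ≤ ∑ m ∈ range n, (∑ i, v i) * R M m := by
        refine Finset.sum_le_sum fun m _ => ?_
        unfold R Aw
        rw [Finset.mul_sum]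
        refine Finset.sum_le_sum fun i _ => ?_
        rw [Finset.mul_sum]
        refine Finset.sum_le_sum fun j _ => ?_
        rw [mul_comm]
        exact Nat.mul_le_mul_right _ (Finset.single_le_sum (f := v) (fun _ _ => Nat.zero_le _)
          (Finset.mem_univ j))
    _ = _ := by rw [Finset.mul_sum]

end Pool.Agent.T6.H79.TS
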