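import Mathlib

/-!
# Tree-shifts of finite type: definitions

The nodes of the `d`-ary tree are the words over `Fin d`, the children of `w` are the words `w ++ [c]`.
-/

set_option autoImplicit false

namespace Pool.Agent.T6.H79.TS

open Filter Topology

/-- the labelled `d`-ary trees -/
abbrev Tree (d : ℕ) (A : Type) : Type := List (Fin d) → A

/-- the nodes of `Δ_n`: the words of length at most `n - 1` -/
abbrev Node (d n : ℕ) : Type := {w : List (Fin d) // w.length < n}

/-- the `n`-blocks -/
abbrev Block (d : ℕ) (A : Type) (n : ℕ) : Type := Node d n → A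

/-- the `n`-block of the tree `t` at the node `v` -/
def blockAt {d : ℕ} {A : Type} (t : Tree d A) (n : ℕ) (v : List (Fin d)) : Block d A n :=
  fun w => t (v ++ w.1)

/-- the set `X_F` of the labelled trees in which no block of `F` occurs at any node -/
def shift {d : ℕ} {A : Type} (F : Set (Σ n : ℕ, Block d A n)) : Set (Tree d A) :=
  {t | ∀ (v : List (Fin d)) (n : ℕ), (⟨n, blockAt t n v⟩ : Σ n : ℕ, Block d A n) ∉ F}

/-- `X` is a tree-shift of finite type: it is `X_F` for a finite set `F` of blocks -/
def IsTSFT {d : ℕ} {A : Type} (X : Set (Tree d A)) : Prop :=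
  ∃ F : Set (Σ n : ℕ, Block d A n), F.Finite ∧ (∀ b ∈ F, 1 ≤ b.1) ∧ X = shift F

/-- the `n`-blocks which occur in elements of `X` -/
def blocks {d : ℕ} {A : Type} (X : Set (Tree d A)) (n : ℕ) : Set (Block d A n) :=
  {b | ∃ t ∈ X, ∃ v : List (Fin d), b = blockAt t n v}

/-- the entropy of `X`, the limit of `log log |B_n(X)| / n`, exists and is equal to `h` -/
def HasEntropy {d : ℕ} {A : Type} (X : Set (Tree d A)) (h : ℝ) : Prop :=
  Tendsto (fun n : ℕ => Real.log (Real.log ((blocks X n).ncard : ℝ)) / n) atTop (𝓝 h)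

/-- the spectral radius of a matrix with nonnegative integer entries -/
noncomputable def rho {S : Type} [Fintype S] [DecidableEq S] (M : Matrix S S ℕ) : ℝ :=
  (spectralRadius ℂ (M.map (Nat.cast : ℕ → ℂ))).toReal

/-- the matrix shift `X_M`: the bi-infinite sequences with `M (x i) (x (i + 1)) ≠ 0` for all `i` -/
def matrixShift {S : Type} (M : Matrix S S ℕ) : Set (ℤ → S) :=
  {x | ∀ i : ℤ, M (x i) (x (i + 1)) ≠ 0}

end Pool.Agent.T6.H79.TS
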