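import Pool.Agent.T6.H79.TS.G

/-! An integral approximate eigenvector. -/

set_option autoImplicit false

namespace Pool.Agent.T6.H79.TS

open Filter Topology Finset

variable {S : Type} [Fintype S] [DecidableEq S]

theorem exists_vec (M : Matrix S S ℕ) (d : ℕ) (h : rho M < d) :
    ∃ v : S → ℕ, (∀ i, 1 ≤ v i) ∧ ∀ i, ∑ j, M i j * v j ≤ d * v i := by
  rcases isEmpty_or_nonempty S with hS | hS
  · exact ⟨fun _ => 1, fun i => (hS.false i).elim, fun i => (hS.false i).elim⟩
  have hd : 1 ≤ d := by
    have h0 := (rho_nonneg M).trans_lt h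
    have : 0 < d := by exact_mod_cast h0
    omega
  obtain ⟨K, hK1, hK2⟩ := ((R_le M d h).and (eventually_ge_atTop 1)).exists
  set s : ℕ → S → ℕ := fun k i => ∑ j, (M ^ k) i j with hs
  have hs0 : ∀ i, s 0 i = 1 := by
    intro i
    simp only [hs, pow_zero]
    simp [Matrix.one_apply]
  have hsK : ∀ i, s K i ≤ d ^ K := by
    intro i
    have := hK1.1 i
    exact_mod_cast this
  have hstep : ∀ k i, ∑ j, M i j * s k j = s (k + 1) i := by
    intro k i
    simp only [hs]
    simp only [pow_succ', Matrix.mul_apply, Finset.mul_sum]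
    rw [Finset.sum_comm]
  set f : S → ℕ → ℕ := fun i k => d ^ (K - k) * s k i with hf
  refine ⟨fun i => ∑ k ∈ range K, d ^ (K - 1 - k) * s k i, fun i => ?_, fun i => ?_⟩
  · obtain ⟨L, rfl⟩ : ∃ L, K = L + 1 := ⟨K - 1, by omega⟩
    calc 1 ≤ d ^ (L + 1 - 1 - 0) * s 0 i := by
          rw [hs0, mul_one]
          exact Nat.one_le_pow _ _ hd
      _ ≤ _ := Finset.single_le_sum (f := fun k => d ^ (L + 1 - 1 - k) * s k i)
          (fun _ _ => Nat.zero_le _) (Finset.mem_range.2 (Nat.succ_pos L))
  · have e1 : ∑ j, M i j * ∑ k ∈ range K, d ^ (K - 1 - k) * s k j =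
        ∑ k ∈ range K, f i (k + 1) := by
      simp only [Finset.mul_sum]
      rw [Finset.sum_comm]
      refine Finset.sum_congr rfl fun k hk => ?_
      simp only [hf]
      rw [← hstep, Finset.mul_sum]
      refine Finset.sum_congr rfl fun j _ => ?_
      rw [show K - 1 - k = K - (k + 1) by omega]
      ring
    have e2 : d * ∑ k ∈ range K, d ^ (K - 1 - k) * s k i = ∑ k ∈ range K, f i k := by
      rw [Finset.mul_sum]
      refine Finset.sum_congr rfl fun k hk => ?_
      have hk' := Finset.mem_range.1 hk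
      simp only [hf]
      rw [show K - k = K - 1 - k + 1 by omega, pow_succ]
      ring
    rw [e1, e2]
    have e3 := Finset.sum_range_succ (f i) K
    have e4 := Finset.sum_range_succ' (f i) K
    have e5 : f i K ≤ f i 0 := by
      simp only [hf]
      rw [Nat.sub_self, pow_zero, one_mul, Nat.sub_zero, hs0, mul_one]
      exact hsK i
    omega

end Pool.Agent.T6.H79.TS
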