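import Pool.Agent.T6.H79.TS.L

/-! The final statements. -/

set_option autoImplicit false

namespace Pool.Agent.T6.H79.TS

open Filter Topology Finset

theorem R_pos_of_nonempty {S : Type} [Fintype S] [DecidableEq S] (M : Matrix S S ℕ)
    (h : (matrixShift M).Nonempty) (m : ℕ) : 1 ≤ R M m := by
  obtain ⟨x, hx⟩ := h
  have h1 : ∀ m : ℕ, 1 ≤ (M ^ m) (x 0) (x m) := by
    intro m
    induction m with
    | zero => simp
    | succ m ih =>
      rw [pow_succ, Matrix.mul_apply]
      have h2 := hx m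
      have h3 : 1 ≤ (M ^ m) (x 0) (x m) * M (x m) (x ((m + 1 : ℕ) : ℤ)) := by
        have h4 : M (x m) (x ((m + 1 : ℕ) : ℤ)) ≠ 0 := by
          have : ((m + 1 : ℕ) : ℤ) = (m : ℤ) + 1 := by push_cast; ring
          rw [this]
          exact h2
        exact Nat.mul_pos ih (Nat.pos_of_ne_zero h4)
      exact h3.trans (Finset.single_le_sum
        (f := fun j => (M ^ m) (x 0) j * M j (x ((m + 1 : ℕ) : ℤ))) (fun _ _ => Nat.zero_le _)
        (Finset.mem_univ (x m)))
  unfold R
  calc 1 ≤ (M ^ m) (x 0) (x m) := h1 m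
    _ ≤ ∑ j, (M ^ m) (x 0) j :=
      Finset.single_le_sum (f := fun j => (M ^ m) (x 0) j) (fun _ _ => Nat.zero_le _)
        (Finset.mem_univ _)
    _ ≤ _ := Finset.single_le_sum (f := fun i => ∑ j, (M ^ m) i j) (fun _ _ => Nat.zero_le _)
        (Finset.mem_univ _)

theorem one_le_rho {S : Type} [Fintype S] [DecidableEq S] (M : Matrix S S ℕ)
    (h : (matrixShift M).Nonempty) : 1 ≤ rho M := by
  haveI : Nonempty S := by
    obtain ⟨x, -⟩ := h
    exact ⟨x 0⟩
  by_contra hlt
  push Not at hlt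
  obtain ⟨r, h1, h2⟩ := exists_between hlt
  have hr0 : 0 ≤ r := (rho_nonneg M).trans h1.le
  have h3 : Tendsto (fun m : ℕ => (Fintype.card S : ℝ) * r ^ m) atTop
      (𝓝 ((Fintype.card S : ℝ) * 0)) :=
    (tendsto_pow_atTop_nhds_zero_of_lt_one hr0 h2).const_mul _
  rw [mul_zero] at h3
  obtain ⟨m, h4, h5⟩ := ((R_le M r h1).and (h3.eventually_lt_const one_pos)).exists
  have h6 : (1 : ℝ) ≤ R M m := by exact_mod_cast R_pos_of_nonempty M h m
  linarith [h4.2]

/-- the matrix `(d)` -/
def Md (d : ℕ) : Matrix Unit Unit ℕ := fun _ _ => d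

theorem Md_pow (d m : ℕ) : (Md d) ^ m = Md (d ^ m) := by
  induction m with
  | zero =>
    ext i j
    simp [Md]
  | succ m ih =>
    rw [pow_succ, ih]
    ext i j
    simp [Md, Matrix.mul_apply, pow_succ]

theorem rho_Md (d : ℕ) : rho (Md d) = d := by
  have hR : ∀ m, R (Md d) m = d ^ m := by
    intro m
    unfold R
    rw [Md_pow]
    simp [Md]
  apply le_antisymm
  · have h := pow_rho_le (Md d) 1
    rw [hR] at h
    simpa using h
  · by_contra hlt
    push Not at hlt
    obtain ⟨r, h1, h2⟩ := exists_between hlt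
    have hr0 : 0 ≤ r := (rho_nonneg _).trans h1.le
    obtain ⟨m, h4, h5⟩ := ((R_le (Md d) r h1).and (eventually_ge_atTop 1)).exists
    have h6 := h4.2
    rw [hR] at h6
    have h7 : r ^ m < (d : ℝ) ^ m := pow_lt_pow_left₀ h2 hr0 (by omega)
    have h8 : (Fintype.card Unit : ℝ) = 1 := by simp
    rw [h8, one_mul] at h6
    push_cast at h6
    linarith

theorem exists_tsft {S : Type} [Fintype S] [DecidableEq S] [Nonempty S] (M : Matrix S S ℕ)
    (hρ : 1 ≤ rho M) (d : ℕ) (v : S → ℕ) (hv : ∀ i, 1 ≤ v i)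
    (hvM : ∀ i, ∑ j, M i j * v j ≤ d * v i) :
    ∃ (A : Type) (_ : Fintype A) (F : Set (Σ n : ℕ, Block d A n)), F.Finite ∧ (∀ b ∈ F, b.1 = 2) ∧
      (shift F).Nonempty ∧ HasEntropy (shift F) (Real.log (rho M)) := by
  obtain ⟨ch, hch⟩ := exists_child M v d hvM
  obtain ⟨F, h1, h2, h3⟩ := tsft ch
  refine ⟨Al (Cp v), inferInstance, F, h1, h2, ?_, ?_⟩
  · rw [← h3]
    obtain ⟨i⟩ := ‹Nonempty S›
    exact ⟨_, bl_mem ch 0 ⟨i, ⟨0, hv i⟩⟩ fun _ => false⟩
  · rw [← h3]
    exact entropy M v hv d ch hch hρ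

theorem realize {S : Type} [Fintype S] [DecidableEq S] (M : Matrix S S ℕ)
    (h : (matrixShift M).Nonempty) (d : ℕ) (hd : rho M ≤ d) :
    ∃ (A : Type) (_ : Fintype A) (F : Set (Σ n : ℕ, Block d A n)), F.Finite ∧ (∀ b ∈ F, b.1 = 2) ∧
      (shift F).Nonempty ∧ HasEntropy (shift F) (Real.log (rho M)) := by
  haveI : Nonempty S := by
    obtain ⟨x, -⟩ := h
    exact ⟨x 0⟩
  have hρ := one_le_rho M h
  rcases hd.lt_or_eq with h1 | h1
  · obtain ⟨v, hv, hvM⟩ := exists_vec M d h1
    exact exists_tsft M hρ d v hv hvM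
  · have h2 := exists_tsft (Md d) (by rw [rho_Md, ← h1]; exact hρ) d (fun _ => 1)
      (fun _ => le_refl 1) (fun i => by simp [Md])
    rw [rho_Md, ← h1] at h2
    exact h2

/-! ### The upper bound -/

theorem card_node (d n : ℕ) (hd : 2 ≤ d) : Nat.card (Node d n) + 1 ≤ d ^ n := by
  have e : Nat.card (Node d n) = K (fun (_ : Unit) (_ : Fin d) => some ()) n () := by
    rw [← card_live]
    refine Nat.card_congr (Equiv.subtypeEquivRight fun w => ?_)
    have h : ∀ w : List (Fin d), st (fun (_ : Unit) (_ : Fin d) => some ()) () w = some () := by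
      intro w
      induction w with
      | nil => rfl
      | cons c w ih => simpa [st] using ih
    rw [h]
    simp
  rw [e]
  induction n with
  | zero => simp [K]
  | succ n ih =>
    have ih' := ih (by
      rw [← card_live]
      refine Nat.card_congr (Equiv.subtypeEquivRight fun w => ?_)
      have h : ∀ w : List (Fin d), st (fun (_ : Unit) (_ : Fin d) => some ()) () w = some () := by
        intro w
        induction w with
        | nil => rfl
        | cons c w ih => simpa [st] using ih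
      rw [h]
      simp)
    simp only [K, Option.elim_some, Finset.sum_const, Finset.card_univ, Fintype.card_fin,
      smul_eq_mul]
    rw [pow_succ]
    nlinarith

theorem entropy_le {d : ℕ} (hd : 2 ≤ d) {A : Type} [Fintype A] (X : Set (Tree d A)) (h : ℝ)
    (hX : HasEntropy X h) : h ≤ Real.log d := by
  classical
  have hd0 : (0 : ℝ) < d := by positivity
  have hl : 0 ≤ Real.log d := Real.log_natCast_nonneg d
  set a : ℝ := Real.log (Fintype.card A) with ha
  have ha0 : 0 ≤ a := Real.log_natCast_nonneg _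
  have h1 : ∀ n : ℕ, Real.log ((blocks X n).ncard : ℝ) ≤ (a + 1) * (d : ℝ) ^ n := by
    intro n
    have h2 : (blocks X n).ncard ≤ Fintype.card A ^ Nat.card (Node d n) := by
      calc (blocks X n).ncard ≤ (Set.univ : Set (Block d A n)).ncard :=
            Set.ncard_le_ncard (Set.subset_univ _) (Set.toFinite _)
        _ = Nat.card (Block d A n) := Set.ncard_univ _
        _ = _ := by rw [Nat.card_fun, Nat.card_eq_fintype_card]
    rcases Nat.eq_zero_or_pos (blocks X n).ncard with h3 | h3
    · rw [h3]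
      simp only [Nat.cast_zero, Real.log_zero]
      positivity
    · have h4 : Real.log ((blocks X n).ncard : ℝ) ≤ Nat.card (Node d n) * a := by
        rw [ha, ← Real.log_pow]
        refine Real.log_le_log (by exact_mod_cast h3) ?_
        exact_mod_cast h2
      have h5 : (Nat.card (Node d n) : ℝ) ≤ (d : ℝ) ^ n := by
        have := card_node d n hd
        exact_mod_cast (by omega : Nat.card (Node d n) ≤ d ^ n)
      calc Real.log ((blocks X n).ncard : ℝ) ≤ Nat.card (Node d n) * a := h4
        _ ≤ (d : ℝ) ^ n * (a + 1) := by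
            refine mul_le_mul h5 (by linarith) ha0 (by positivity)
        _ = _ := mul_comm _ _
  have h2 : Tendsto (fun n : ℕ => Real.log (a + 1) / n + Real.log d) atTop
      (𝓝 (0 + Real.log d)) :=
    (tendsto_const_nhds.div_atTop tendsto_natCast_atTop_atTop).add_const _
  rw [zero_add] at h2
  refine le_of_tendsto_of_tendsto hX h2 ?_
  filter_upwards [eventually_gt_atTop 0] with n hn
  have hn' : (0 : ℝ) < n := by exact_mod_cast hn
  have hpow : (1 : ℝ) ≤ (a + 1) * (d : ℝ) ^ n := by
    have : (1 : ℝ) ≤ (d : ℝ) ^ n := one_le_pow₀ (by exact_mod_cast (by omega : 1 ≤ d))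
    nlinarith
  have h3 : Real.log (Real.log ((blocks X n).ncard : ℝ)) ≤ Real.log ((a + 1) * (d : ℝ) ^ n) := by
    rcases (Real.log_natCast_nonneg (blocks X n).ncard).eq_or_lt with h4 | h4
    · rw [← h4, Real.log_zero]
      exact Real.log_nonneg hpow
    · exact Real.log_le_log h4 (h1 n)
  rw [Real.log_mul (by positivity) (by positivity), Real.log_pow] at h3
  rw [div_le_iff₀ hn']
  refine h3.trans (le_of_eq ?_)
  field_simp

theorem exists_arity {S : Type} [Fintype S] [DecidableEq S] (M : Matrix S S ℕ) :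
    ∃ d : ℕ, 2 ≤ d ∧ rho M ≤ d := by
  obtain ⟨d, hd⟩ := exists_nat_ge (rho M)
  refine ⟨d + 2, by omega, hd.trans ?_⟩
  push_cast
  linarith

theorem arity_le {S : Type} [Fintype S] [DecidableEq S] (M : Matrix S S ℕ)
    (h : (matrixShift M).Nonempty) (d : ℕ) (hd : 2 ≤ d) (A : Type) [Fintype A] (X : Set (Tree d A))
    (hX : HasEntropy X (Real.log (rho M))) : rho M ≤ d := by
  have h1 := entropy_le hd X _ hX
  have h2 : 0 < rho M := by linarith [one_le_rho M h]
  exact (Real.log_le_log_iff h2 (by positivity)).1 h1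

end Pool.Agent.T6.H79.TS
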