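import Pool.Agent.T6.H79.TS.Defs

/-! Growth of the powers of a nonnegative integer matrix. -/

set_option autoImplicit false

namespace Pool.Agent.T6.H79.TS

open Filter Topology Finset
open scoped NNReal ENNReal

section
variable {S : Type} [Fintype S] [DecidableEq S]

attribute [local instance] Matrix.linftyOpNormedRing Matrix.linftyOpNormedAlgebra

/-- the sum of the entries of `M ^ m` -/
def R (M : Matrix S S ℕ) (m : ℕ) : ℕ := ∑ i, ∑ j, (M ^ m) i j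

theorem map_pow' (M : Matrix S S ℕ) (m : ℕ) :
    (M.map (Nat.cast : ℕ → ℂ)) ^ m = (M ^ m).map (Nat.cast : ℕ → ℂ) := by
  have := map_pow ((Nat.castRingHom ℂ).mapMatrix (m := S)) M m
  exact this.symm

theorem norm_row (M : Matrix S S ℕ) (i : S) :
    ((∑ j, M i j : ℕ) : ℝ) ≤ ‖M.map (Nat.cast : ℕ → ℂ)‖ := by
  rw [Matrix.linfty_opNorm_def]
  have h1 : (∑ j, ‖(M.map (Nat.cast : ℕ → ℂ)) i j‖₊) ≤
      Finset.univ.sup fun i : S => ∑ j, ‖(M.map (Nat.cast : ℕ → ℂ)) i j‖₊ :=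
    Finset.le_sup (f := fun i : S => ∑ j, ‖(M.map (Nat.cast : ℕ → ℂ)) i j‖₊) (Finset.mem_univ i)
  refine le_trans (le_of_eq ?_) (NNReal.coe_le_coe.2 h1)
  push_cast
  refine Finset.sum_congr rfl fun j _ => ?_
  simp

theorem norm_le_sum (M : Matrix S S ℕ) :
    ‖M.map (Nat.cast : ℕ → ℂ)‖ ≤ ((∑ i, ∑ j, M i j : ℕ) : ℝ) := by
  rw [Matrix.linfty_opNorm_def]
  have h1 : (Finset.univ.sup fun i : S => ∑ j, ‖(M.map (Nat.cast : ℕ → ℂ)) i j‖₊) ≤
      ((∑ i, ∑ j, M i j : ℕ) : ℝ≥0) := by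
    refine Finset.sup_le fun i _ => ?_
    have h2 : (∑ j, ‖(M.map (Nat.cast : ℕ → ℂ)) i j‖₊) = ((∑ j, M i j : ℕ) : ℝ≥0) := by
      push_cast
      refine Finset.sum_congr rfl fun j _ => ?_
      simp
    rw [h2]
    exact_mod_cast Finset.single_le_sum (f := fun i => ∑ j, M i j) (fun _ _ => Nat.zero_le _)
      (Finset.mem_univ i)
  exact_mod_cast h1

theorem radius_ne_top (M : Matrix S S ℕ) :
    spectralRadius ℂ (M.map (Nat.cast : ℕ → ℂ)) ≠ ⊤ := by
  haveI : CompleteSpace (Matrix S S ℂ) := FiniteDimensional.complete ℂ _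
  have h := spectrum.spectralRadius_le_pow_nnnorm_pow_one_div ℂ (M.map (Nat.cast : ℕ → ℂ)) 0
  refine ne_top_of_le_ne_top ?_ h
  simp [ENNReal.mul_ne_top]

theorem rho_nonneg (M : Matrix S S ℕ) : 0 ≤ rho M := ENNReal.toReal_nonneg

/-- `ρ^m ≤ R_m` -/
theorem pow_rho_le [Nonempty S] (M : Matrix S S ℕ) (m : ℕ) : rho M ^ m ≤ R M m := by
  haveI : CompleteSpace (Matrix S S ℂ) := FiniteDimensional.complete ℂ _
  rcases Nat.eq_zero_or_pos m with rfl | hm
  · have : 1 ≤ R M 0 := by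
      obtain ⟨i⟩ := ‹Nonempty S›
      unfold R
      rw [pow_zero]
      calc 1 = (1 : Matrix S S ℕ) i i := by simp
        _ ≤ ∑ j, (1 : Matrix S S ℕ) i j :=
          Finset.single_le_sum (f := fun j => (1 : Matrix S S ℕ) i j) (fun _ _ => Nat.zero_le _)
            (Finset.mem_univ i)
        _ ≤ _ := Finset.single_le_sum (f := fun i => ∑ j, (1 : Matrix S S ℕ) i j)
            (fun _ _ => Nat.zero_le _) (Finset.mem_univ i)
    rw [pow_zero]
    exact_mod_cast this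
  obtain ⟨n, rfl⟩ : ∃ n, m = n + 1 := ⟨m - 1, by omega⟩
  have h := spectrum.spectralRadius_le_pow_nnnorm_pow_one_div ℂ (M.map (Nat.cast : ℕ → ℂ)) n
  have h1 : ‖(1 : Matrix S S ℂ)‖₊ = 1 := by
    have h2 : ‖(1 : Matrix S S ℂ)‖ = 1 := by
      have : NormOneClass (Matrix S S ℂ) := Matrix.linfty_opNormOneClass
      exact norm_one
    exact NNReal.eq h2
  rw [h1, ENNReal.coe_one, ENNReal.one_rpow, mul_one] at h
  have h2 : rho M ≤ ‖(M.map (Nat.cast : ℕ → ℂ)) ^ (n + 1)‖ ^ (1 / ((n : ℝ) + 1)) := by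
    have h3 := ENNReal.toReal_mono (by
      refine ENNReal.rpow_ne_top_of_nonneg (by positivity) ENNReal.coe_ne_top) h
    rw [← ENNReal.toReal_rpow] at h3
    exact h3
  have h4 : rho M ^ (n + 1) ≤ ‖(M.map (Nat.cast : ℕ → ℂ)) ^ (n + 1)‖ := by
    calc rho M ^ (n + 1) ≤ (‖(M.map (Nat.cast : ℕ → ℂ)) ^ (n + 1)‖ ^ (1 / ((n : ℝ) + 1))) ^ (n + 1) :=
        pow_le_pow_left₀ (rho_nonneg M) h2 _
      _ = ‖(M.map (Nat.cast : ℕ → ℂ)) ^ (n + 1)‖ := by
        rw [← Real.rpow_natCast, ← Real.rpow_mul (norm_nonneg _)]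
        push_cast
        rw [one_div, inv_mul_cancel₀ (by positivity), Real.rpow_one]
  rw [map_pow'] at h4
  exact h4.trans (norm_le_sum _)

/-- `R_m ≤ r^m` for large `m`, up to the number of states -/
theorem R_le [Nonempty S] (M : Matrix S S ℕ) (r : ℝ) (hr : rho M < r) :
    ∀ᶠ m : ℕ in atTop, (∀ i, ((∑ j, (M ^ m) i j : ℕ) : ℝ) ≤ r ^ m) ∧
      (R M m : ℝ) ≤ Fintype.card S * r ^ m := by
  haveI : CompleteSpace (Matrix S S ℂ) := FiniteDimensional.complete ℂ _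
  have h := spectrum.pow_nnnorm_pow_one_div_tendsto_nhds_spectralRadius
    (M.map (Nat.cast : ℕ → ℂ))
  have hr0 : 0 ≤ r := (rho_nonneg M).trans hr.le
  have h1 : spectralRadius ℂ (M.map (Nat.cast : ℕ → ℂ)) < ENNReal.ofReal r := by
    rw [ENNReal.lt_ofReal_iff_toReal_lt (radius_ne_top M)]
    exact hr
  filter_upwards [h.eventually_lt_const h1, eventually_gt_atTop 0] with m hm hm0
  have h2 : ‖(M.map (Nat.cast : ℕ → ℂ)) ^ m‖ ≤ r ^ m := by
    have h3 := ENNReal.toReal_mono ENNReal.ofReal_ne_top hm.le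
    rw [← ENNReal.toReal_rpow, ENNReal.toReal_ofReal hr0] at h3
    have h4 : ‖(M.map (Nat.cast : ℕ → ℂ)) ^ m‖ ^ (1 / (m : ℝ)) ≤ r := h3
    calc ‖(M.map (Nat.cast : ℕ → ℂ)) ^ m‖ =
        (‖(M.map (Nat.cast : ℕ → ℂ)) ^ m‖ ^ (1 / (m : ℝ))) ^ m := by
          rw [← Real.rpow_natCast, ← Real.rpow_mul (norm_nonneg _), one_div,
            inv_mul_cancel₀ (by positivity), Real.rpow_one]
      _ ≤ r ^ m := pow_le_pow_left₀ (by positivity) h4 _
  rw [map_pow'] at h2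
  have h5 : ∀ i, ((∑ j, (M ^ m) i j : ℕ) : ℝ) ≤ r ^ m := fun i => (norm_row _ i).trans h2
  refine ⟨h5, ?_⟩
  unfold R
  push_cast
  calc ∑ i, ∑ j, ((M ^ m) i j : ℝ) ≤ ∑ i : S, r ^ m :=
        Finset.sum_le_sum fun i _ => by
          have := h5 i
          push_cast at this
          exact this
    _ = Fintype.card S * r ^ m := by
        rw [Finset.sum_const, Finset.card_univ, nsmul_eq_mul]

end

end Pool.Agent.T6.H79.TS
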