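import Pool.Agent.T6.H79.TS.C

/-! The entropy of the tree-shift. -/

set_option autoImplicit false

namespace Pool.Agent.T6.H79.TS

open Filter Topology Finset

variable {S : Type} [Fintype S] [DecidableEq S]

theorem log_lower {d : ℕ} {P : Type} [Fintype P] [Nonempty P] (ch : P → Fin d → Option P) (n : ℕ) :
    Real.log 2 / Fintype.card P * ((∑ x, K ch n x : ℕ) : ℝ) ≤
      Real.log ((blocks (XX ch) n).ncard : ℝ) := by
  have hV : 0 < Fintype.card P := Fintype.card_pos
  obtain ⟨s, hs⟩ : ∃ s, ∑ x, K ch n x ≤ Fintype.card P * K ch n s := by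
    by_contra hcon
    push Not at hcon
    have h1 : ∑ s : P, Fintype.card P * K ch n s < ∑ _s : P, ∑ x, K ch n x :=
      Finset.sum_lt_sum_of_nonempty Finset.univ_nonempty fun s _ => hcon s
    rw [← Finset.mul_sum, Finset.sum_const, Finset.card_univ, smul_eq_mul] at h1
    exact lt_irrefl _ h1
  have h2 := lower ch n s
  have h3 : (K ch n s : ℝ) * Real.log 2 ≤ Real.log ((blocks (XX ch) n).ncard : ℝ) := by
    rw [← Real.log_pow]
    refine Real.log_le_log (by positivity) ?_
    exact_mod_cast h2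
  have h4 : ((∑ x, K ch n x : ℕ) : ℝ) ≤ Fintype.card P * K ch n s := by exact_mod_cast hs
  have hV' : (0 : ℝ) < Fintype.card P := by exact_mod_cast hV
  have hl : 0 < Real.log 2 := Real.log_pos (by norm_num)
  calc Real.log 2 / Fintype.card P * ((∑ x, K ch n x : ℕ) : ℝ) ≤
        Real.log 2 / Fintype.card P * (Fintype.card P * K ch n s) :=
        mul_le_mul_of_nonneg_left h4 (by positivity)
    _ = K ch n s * Real.log 2 := by field_simp
    _ ≤ _ := h3

theorem log_upper {d : ℕ} {P : Type} [Fintype P] [Nonempty P] (ch : P → Fin d → Option P) (n : ℕ) :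
    Real.log ((blocks (XX ch) n).ncard : ℝ) ≤
      Real.log (Fintype.card P + 1) + Real.log 2 * ((∑ x, K ch n x : ℕ) : ℝ) := by
  have h1 := upper ch n
  have h2 : ∑ s, 2 ^ K ch n s ≤ Fintype.card P * 2 ^ (∑ x, K ch n x) := by
    calc ∑ s, 2 ^ K ch n s ≤ ∑ _s : P, 2 ^ (∑ x, K ch n x) := by
          refine Finset.sum_le_sum fun s _ => Nat.pow_le_pow_right (by norm_num) ?_
          exact Finset.single_le_sum (f := fun x => K ch n x) (fun _ _ => Nat.zero_le _)
            (Finset.mem_univ s)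
      _ = _ := by rw [Finset.sum_const, Finset.card_univ, smul_eq_mul]
  have h3 : (blocks (XX ch) n).ncard ≤ (Fintype.card P + 1) * 2 ^ (∑ x, K ch n x) := by
    have := Nat.one_le_two_pow (n := ∑ x, K ch n x)
    nlinarith
  have h0 : 1 ≤ (blocks (XX ch) n).ncard := by
    obtain ⟨s⟩ := ‹Nonempty P›
    exact (Nat.one_le_two_pow).trans (lower ch n s)
  have h4 : ((blocks (XX ch) n).ncard : ℝ) ≤ (Fintype.card P + 1) * 2 ^ (∑ x, K ch n x) := by
    exact_mod_cast h3
  calc Real.log ((blocks (XX ch) n).ncard : ℝ) ≤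
        Real.log ((Fintype.card P + 1) * 2 ^ (∑ x, K ch n x)) :=
        Real.log_le_log (by exact_mod_cast h0) h4
    _ = _ := by
        rw [Real.log_mul (by positivity) (by positivity), Real.log_pow]
        ring

theorem entropy [Nonempty S] (M : Matrix S S ℕ) (v : S → ℕ) (hv : ∀ i, 1 ≤ v i) (d : ℕ)
    (ch : Cp v → Fin d → Option (Cp v))
    (hch : ∀ (i : S) (f : Cp v → ℕ), ∑ k : Fin (v i), ∑ c : Fin d, (ch ⟨i, k⟩ c).elim 0 f =
        ∑ j, M i j * ∑ l : Fin (v j), f ⟨j, l⟩) (hρ : 1 ≤ rho M) :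
    HasEntropy (XX ch) (Real.log (rho M)) := by
  haveI : Nonempty (Cp v) := by
    obtain ⟨i⟩ := ‹Nonempty S›
    exact ⟨⟨i, ⟨0, hv i⟩⟩⟩
  set V : ℝ := ((Fintype.card (Cp v) : ℕ) : ℝ) with hV
  have hV0 : 0 < V := by
    rw [hV]
    exact_mod_cast Fintype.card_pos (α := Cp v)
  have hl2 : 0 < Real.log 2 := Real.log_pos (by norm_num)
  set b : ℕ → ℝ := fun n => ((blocks (XX ch) n).ncard : ℝ) with hb
  have hρ0 : 0 < rho M := by linarith
  -- the lower bound
  have hlow : ∀ n : ℕ, Real.log (Real.log 2 / V) + n * Real.log (rho M) ≤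
      Real.log (Real.log (b (n + 1))) := by
    intro n
    have h1 := log_lower ch (n + 1)
    have h2 : rho M ^ n ≤ ((∑ x, K ch (n + 1) x : ℕ) : ℝ) :=
      (pow_rho_le M n).trans (by exact_mod_cast total_lower M v hv d ch hch n)
    have h3 : Real.log 2 / V * rho M ^ n ≤ Real.log (b (n + 1)) :=
      (mul_le_mul_of_nonneg_left h2 (by positivity)).trans h1
    rw [← Real.log_pow, ← Real.log_mul (by positivity) (by positivity)]
    exact Real.log_le_log (by positivity) h3
  unfold HasEntropy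
  rw [← tendsto_add_atTop_iff_nat 1]
  rw [tendsto_order]
  have hn1 : Tendsto (fun n : ℕ => ((n : ℝ) + 1)) atTop atTop :=
    tendsto_atTop_add_const_right _ _ tendsto_natCast_atTop_atTop
  have hinv : Tendsto (fun n : ℕ => ((n : ℝ) + 1)⁻¹) atTop (𝓝 0) := tendsto_inv_atTop_zero.comp hn1
  have hfrac : Tendsto (fun n : ℕ => (n : ℝ) * ((n : ℝ) + 1)⁻¹) atTop (𝓝 1) := by
    have h1 : Tendsto (fun n : ℕ => 1 - ((n : ℝ) + 1)⁻¹) atTop (𝓝 (1 - 0)) :=
      tendsto_const_nhds.sub hinv
    rw [sub_zero] at h1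
    refine h1.congr fun n => ?_
    have : (n : ℝ) + 1 ≠ 0 := by positivity
    field_simp
    ring
  constructor
  · intro a ha
    have h1 : Tendsto (fun n : ℕ => Real.log (Real.log 2 / V) * ((n : ℝ) + 1)⁻¹ +
        ((n : ℝ) * ((n : ℝ) + 1)⁻¹) * Real.log (rho M)) atTop (𝓝 (Real.log (Real.log 2 / V) * 0 +
          1 * Real.log (rho M))) :=
      (hinv.const_mul _).add (hfrac.mul_const _)
    rw [mul_zero, zero_add, one_mul] at h1
    filter_upwards [h1.eventually_const_lt ha] with n hn
    refine hn.trans_le ?_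
    have h2 := hlow n
    push_cast
    rw [div_eq_mul_inv]
    calc Real.log (Real.log 2 / V) * ((n : ℝ) + 1)⁻¹ + ((n : ℝ) * ((n : ℝ) + 1)⁻¹) * Real.log (rho M)
        = (Real.log (Real.log 2 / V) + n * Real.log (rho M)) * ((n : ℝ) + 1)⁻¹ := by ring
      _ ≤ _ := mul_le_mul_of_nonneg_right h2 (by positivity)
  · intro a ha
    set r : ℝ := Real.exp ((a + Real.log (rho M)) / 2) with hr
    have hlr : Real.log r = (a + Real.log (rho M)) / 2 := by rw [hr, Real.log_exp]
    have hr1 : rho M < r := by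
      rw [hr]
      calc rho M = Real.exp (Real.log (rho M)) := (Real.exp_log hρ0).symm
        _ < _ := Real.exp_lt_exp.2 (by linarith)
    have hr2 : 1 ≤ r := hρ.trans hr1.le
    have hr0 : 0 < r := by linarith
    -- a bound for all `m`
    obtain ⟨C, hC1, hC⟩ : ∃ C : ℝ, 1 ≤ C ∧ ∀ m, (R M m : ℝ) ≤ C * r ^ m := by
      obtain ⟨m₀, hm₀⟩ := eventually_atTop.1 (R_le M r hr1)
      refine ⟨Fintype.card S + 1 + ∑ m ∈ range m₀, (R M m : ℝ), ?_, fun m => ?_⟩
      · have : 0 ≤ ∑ m ∈ range m₀, (R M m : ℝ) := Finset.sum_nonneg fun _ _ => Nat.cast_nonneg _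
        have : (0 : ℝ) ≤ Fintype.card S := Nat.cast_nonneg _
        linarith
      · have hpow : 1 ≤ r ^ m := one_le_pow₀ hr2
        have hs0 : 0 ≤ ∑ m ∈ range m₀, (R M m : ℝ) := Finset.sum_nonneg fun _ _ => Nat.cast_nonneg _
        have hc0 : (0 : ℝ) ≤ Fintype.card S := Nat.cast_nonneg _
        rcases lt_or_ge m m₀ with h | h
        · have h1 : (R M m : ℝ) ≤ ∑ m ∈ range m₀, (R M m : ℝ) :=
            Finset.single_le_sum (f := fun m => (R M m : ℝ)) (fun _ _ => Nat.cast_nonneg _)
              (Finset.mem_range.2 h)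
          calc (R M m : ℝ) ≤ (Fintype.card S + 1 + ∑ m ∈ range m₀, (R M m : ℝ)) * 1 := by linarith
            _ ≤ _ := mul_le_mul_of_nonneg_left hpow (by linarith)
        · have h1 := (hm₀ m h).2
          refine h1.trans (mul_le_mul_of_nonneg_right (by linarith) (by positivity))
    set Vm : ℝ := ((∑ i, v i : ℕ) : ℝ) with hVm
    have hVm0 : 0 ≤ Vm := Nat.cast_nonneg _
    have hT : ∀ n : ℕ, ((∑ x, K ch (n + 1) x : ℕ) : ℝ) ≤ Vm * (C * ((n + 1) * r ^ (n + 1))) := by
      intro n
      have h0 : ((∑ x, K ch (n + 1) x : ℕ) : ℝ) ≤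
          Vm * ((∑ m ∈ range (n + 1), R M m : ℕ) : ℝ) := by
        rw [hVm, ← Nat.cast_mul]
        exact Nat.cast_le.2 (total_upper M v d ch hch (n + 1))
      have h1 : ((∑ x, K ch (n + 1) x : ℕ) : ℝ) ≤ Vm * ∑ m ∈ range (n + 1), (R M m : ℝ) := by
        rw [Nat.cast_sum (range (n + 1))] at h0
        exact h0
      refine h1.trans (mul_le_mul_of_nonneg_left ?_ hVm0)
      calc ∑ m ∈ range (n + 1), (R M m : ℝ) ≤ ∑ _m ∈ range (n + 1), C * r ^ (n + 1) := by
            refine Finset.sum_le_sum fun m hm => (hC m).trans ?_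
            refine mul_le_mul_of_nonneg_left ?_ (by linarith)
            exact pow_le_pow_right₀ hr2 (Finset.mem_range.1 hm).le
        _ = C * ((n + 1) * r ^ (n + 1)) := by
            rw [Finset.sum_const, Finset.card_range, nsmul_eq_mul]
            push_cast
            ring
    set D : ℝ := Real.log (V + 1) + Real.log 2 * Vm * C + 1 with hD
    have hD0 : 0 < D := by
      have : 0 ≤ Real.log (V + 1) := Real.log_nonneg (by linarith)
      have : 0 ≤ Real.log 2 * Vm * C := by positivity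
      linarith
    have hup : ∀ n : ℕ, Real.log (b (n + 1)) ≤ D * ((n + 1) * r ^ (n + 1)) := by
      intro n
      have h1 := log_upper ch (n + 1)
      have h2 := mul_le_mul_of_nonneg_left (hT n) hl2.le
      have h3 : (1 : ℝ) ≤ (n + 1) * r ^ (n + 1) := by
        have h4 : 1 ≤ r ^ (n + 1) := one_le_pow₀ hr2
        have h5 : (1 : ℝ) ≤ n + 1 := by
          have : (0 : ℝ) ≤ n := Nat.cast_nonneg n
          linarith
        nlinarith
      have h6 : 0 ≤ Real.log (V + 1) := Real.log_nonneg (by linarith)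
      have h7 : Real.log (b (n + 1)) ≤ Real.log (V + 1) +
          Real.log 2 * (Vm * (C * ((n + 1) * r ^ (n + 1)))) := by
        refine h1.trans ?_
        rw [← hV]
        linarith
      refine h7.trans ?_
      rw [hD]
      have h8 : Real.log (V + 1) * 1 ≤ Real.log (V + 1) * ((n + 1) * r ^ (n + 1)) :=
        mul_le_mul_of_nonneg_left h3 h6
      nlinarith
    have hlog : ∀ n : ℕ, Real.log (Real.log (b (n + 1))) ≤
        Real.log D + Real.log (n + 1) + (n + 1) * Real.log r := by
      intro n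
      have hpos : 0 < Real.log (b (n + 1)) := by
        have h1 := log_lower ch (n + 1)
        have h2 : rho M ^ n ≤ ((∑ x, K ch (n + 1) x : ℕ) : ℝ) :=
          (pow_rho_le M n).trans (by exact_mod_cast total_lower M v hv d ch hch n)
        have h3 : Real.log 2 / V * rho M ^ n ≤ Real.log (b (n + 1)) :=
          (mul_le_mul_of_nonneg_left h2 (by positivity)).trans h1
        exact lt_of_lt_of_le (by positivity) h3
      have h1 := Real.log_le_log hpos (hup n)
      rw [Real.log_mul hD0.ne' (by positivity), Real.log_mul (by positivity) (by positivity),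
        Real.log_pow] at h1
      push_cast at h1
      linarith
    have hz : Tendsto (fun n : ℕ => Real.log D * ((n : ℝ) + 1)⁻¹ +
        Real.log ((n : ℝ) + 1) / ((n : ℝ) + 1) + Real.log r) atTop
          (𝓝 (Real.log D * 0 + 0 + Real.log r)) := by
      have h1 : Tendsto (fun n : ℕ => Real.log ((n : ℝ) + 1) / ((n : ℝ) + 1)) atTop (𝓝 0) :=
        (Real.isLittleO_log_id_atTop.tendsto_div_nhds_zero).comp hn1
      exact ((hinv.const_mul _).add h1).add_const _
    have hlt : Real.log D * 0 + 0 + Real.log r < a := by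
      rw [mul_zero, zero_add, zero_add, hlr]
      linarith
    filter_upwards [hz.eventually_lt_const hlt] with n hn
    refine lt_of_le_of_lt ?_ hn
    push_cast
    have hne : (0 : ℝ) < (n : ℝ) + 1 := by positivity
    rw [div_le_iff₀ hne]
    refine (hlog n).trans (le_of_eq ?_)
    field_simp

end Pool.Agent.T6.H79.TS
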